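import Mathlib
import Pool.Agent.H839.Lift.Codim

/-!
# The cycles with orthogonal lifts have finite codimension, and the height pairing is defined on them

Let `X` be a smooth proper variety of dimension `d` over a number field `E`, `𝒳` a regular proper flat
model of `X` over `O_E` and `i` any codimension. Nothing else is assumed. Let `L^i(X)` be the space of
the classes in `Ch^i(X)_{ℚ,0}` which have a lift to `𝒳` that is orthogonal to all fibral cycles, so
that Q1 says that `L^i(X) = Ch^i(X)_{ℚ,0}`. We show, unconditionally:

1. `L^i(X)` has finite codimension in `Ch^i(X)_{ℚ,0}`. The codimension is at most the sum, over the
   finitely many places `s` at which the fibre of `𝒳` is not smooth, of the dimensions of the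
   radicals of the intersection forms on fibral cycles, modulo numerically trivial cycles. (These
   numbers depend only on the fibres; `Ch^i(X)_{ℚ,0}` itself is not known to be finite dimensional.)
2. The same is true for `L^(d+1-i)(X)`.
3. The Gillet–Soulé pairing of orthogonal lifts of classes in `L^i(X)` and `L^(d+1-i)(X)` depends only
   on these classes (`HasHeightPairing`). So the height pairing of Beilinson and Bloch is defined on
   subspaces of finite codimension, for every `X` with a regular model.

## The setting

`M : ModelData` consists of `A = Ch^i(𝒳)_{ℚ,0}`, `G = Ch^i(X)_{ℚ,0}`, the restriction `res`, the spaces
`B s ⊆ A` of the classes of cycles supported in the fibre over `s`, the same for the codimension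
`d + 1 - i` (`A'`, `G'`, `res'`, `B'`), and the Gillet–Soulé pairing `gs`. `IsModel` lists the known
facts: surjectivity of the restriction, localization, the pairing with a fibral class over `s` is a
rational number times `log N(s)`, different fibres are orthogonal, and the fibral classes over a
place `s` outside the finite set `bad` (of smooth fibre) are orthogonal to all of `A`, since the
restriction of a cohomologically trivial cycle to a smooth fibre is cohomologically trivial.
`NumTrivial` says that for `s` in `bad` there is a space `T s` of fibral classes which are orthogonal
to `A`, such that the quotient `B' s / T s` is finite dimensional: for `f : Y' ⟶ Y` an alteration of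
the reduced fibre with `Y'` smooth and projective one can take for `T s` the classes of `f_* t` for
the numerically trivial cycles `t` on `Y'`, by the projection formula; the cycles on `Y'` modulo
numerical equivalence are a finite-dimensional space.
-/

set_option autoImplicit false

universe u v

namespace Pool.Agent.Results.MP_62d77c_ag.FiniteCodimension

open Pool.Agent.H839.Lift

/-- **The classes with orthogonal lifts are a subspace of finite codimension, on which the height
pairing of Beilinson and Bloch is defined.** -/
theorem result {P : Type u} (M : ModelData.{u, v} P) (bad : Finset P)
    (T : P → Submodule ℚ M.A') (T' : P → Submodule ℚ M.A)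
    (h : M.IsModel bad) (h' : M.swap.IsModel bad)
    (hT : M.NumTrivial bad T) (hT' : M.swap.NumTrivial bad T') :
    M.CodimBounded bad T ∧ M.swap.CodimBounded bad T' ∧ M.HasHeightPairing :=
  ⟨ModelData.finite_codim h hT, ModelData.finite_codim h' hT', ModelData.exists_height M⟩

end Pool.Agent.Results.MP_62d77c_ag.FiniteCodimension
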