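import Pool.Agent.H367.OS.GWu

/-!
# Orthogonal liftings of homologically trivial cycles and one sequence of cubics

A relation `r` of size `m` is one of the equations `x_i x_j = x_l`, `x_i + x_j = x_l`, `x_i = 1` with
`i, j, l < m`; the relations are numbered, the number of `r` is `ν(r)` (`relNum`). Let `G_m` be the
following polynomial with integral coefficients (`univG ℤ m`). There are variables `x_i` and `z_ij` for
`i, j < m`, a variable `c_r` for every relation `r`, and variables `y_{r,l}` for all relations `r` and
`l < (m + 1) 2 ^ ν(r)`. The equations (`eqnG`) are

  `z_ij - x_i x_j`,  `c_r ^ 2 - c_r`,  `c_r ρ_r`,  `(1 - c_r) y_{r,l}`,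

where `ρ_r` is the linear polynomial `z_ij - x_l`, `x_i + x_j - x_l` or `x_i - 1` of the relation.
`G_m` is the sum of the equations multiplied by further variables `t_e`, one for each equation. It has
degree three. Let `C_m` be the affine cubic hypersurface `G_m = 1` (`cubG R m` over the ring `R`); it is
smooth over the integers.

For a smooth projective scheme `Y` over `ℚ` let `B^n(Y)` be the space of homologically trivial cycles
`Ch^n(Y)_{ℚ,0}` and `A^n(Y)` the subspace of the classes `c` with the following property: for every
(or for some) surjective morphism `f : Y' → Y` of smooth projective schemes of the same dimension such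
that `Y'` has a regular proper flat model `𝒴'` over `ℤ` (it exists by the theorem of de Jong), `f^* c`
is the restriction of a class in `Ch^n(𝒴')` that is orthogonal to all cycles supported in closed
fibres. This does not depend on the choices, and `A^n` and `B^n` are additive functors of Chow motives
over `ℚ` (see the library, `MP_62d77c_ag.HypergraphCubics`).

For a separated scheme `X` of finite type over `ℚ` let `W(X)` be its weight complex (Gillet, Soulé),
with `W(X) = h(X)` for smooth projective `X`, and `A^{n,i}(X) = H^i(A^n(W(X)))`, `B^{n,i}(X) =
H^i(B^n(W(X)))`. `BijAt C Prod.fst n X` says that the maps `A^{n,i}(X) → B^{n,i}(X)` are isomorphisms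
for this `n` and all `i`.

Let `V` be the type of all data `x = (E, X, 𝒳, i, c)` of a number field `E`, a smooth proper variety
`X` over `E` with a regular proper flat model `𝒳`, an integer `i` and a class `c ∈ Ch^i(X)_{ℚ,0}`; let
`cod x = i` be the codimension, and let `lift x` be the statement of question Q1 that `c` is the
restriction of a class orthogonal to all fibral cycles. A variety over `E` is a scheme over `ℚ`, and a
model over `O_E` is a model over `ℤ`, with the same fibral cycles; so for every `n` the statements
`lift x` for all `x` of codimension `n` are equivalent to `BijAt C Prod.fst n Y` for all smooth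
projective schemes `Y` over `ℚ` (hypothesis `models`, by the theorem of de Jong). The statement is
known for `n ≤ 1`: the space `Ch^1(X)_{ℚ,0} = Pic^0(X)_ℚ` depends only on `h^1(X)`, a direct factor of
the motive of a curve, and for curves the lifting exists since the intersection form of a fibre is
negative semidefinite with the fibre as its radical (hypothesis `divisors`).

**Theorem.** Let `E_m` be the number of the equations, and for `N ∈ ℕ` let
`idx m n N = n + (m + 1) N + E_m - 1`.

(1) For every `n`, question Q1 has a positive answer for all number fields, varieties, models and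
cycles of codimension `n` if and only if the maps `A^{idx m n N, i}(C_m) → B^{idx m n N, i}(C_m)` are
isomorphisms for all `N` and `i`, for infinitely many `m`.

(2) It has a positive answer if and only if the maps `A^{n, i}(C_m) → B^{n, i}(C_m)` are isomorphisms
for all `n` and `i`, for infinitely many `m`.

(3) The hypersurfaces `C_m` decide the statements (`Decides`): for every affine scheme `Spec B` of
finite type over `ℚ` and all large `m` there is an `N` such that for `0 ≤ n ≤ m` the statement with
the index `n` for `Spec B` is equivalent to the one with the index `idx m n N` for `C_m`; and for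
every separated scheme `X` of finite type and all large `m`, the statements for `C_m` imply the
statements for `X`.

(4) For `n ≤ 1` the maps with the indices `idx m n N` are isomorphisms for `C_m`, for all `m ≥ 1` and
`N`.

(5) `G_m` has integral coefficients and degree at most three, and `C_m` is smooth over all rings.

The hypotheses are standard: localisation sequences, affine bundles and products with `𝔾_m`
(`IsWeightPair`); the weight complex of a scheme of dimension at most `d` consists of direct factors of
motives of smooth projective varieties of dimension at most `d`, so that the groups vanish outside of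
the codimensions `0, …, d` (`PVanish`, `GenAt`).

Idea of the proof. The projection of `C_m` to the affine space with the coordinates `x, z, c, y` is an
affine bundle over the complement of the zero set `W_m` of the equations. The scheme `W_m` is the
disjoint union, over all sets `s` of relations (`c_r = 1` for `r ∈ s` and `c_r = 0` for the others), of
the products `X_s × 𝔸 ^ ((m + 1) N(s))`, where `X_s` is the affine scheme defined by the relations in
`s` and `N(s) = ∑_{r ∈ s} 2 ^ ν(r)`. The numbers `N(s)` are different, and the dimension of `X_s` is at
most `m`. So the invariant of `W_m` with the index `q + (m + 1) N(s)`, `0 ≤ q ≤ m`, is the invariant of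
`X_s` with the index `q`; the other components do not contribute. Every affine scheme of finite type
over a prime field is an `X_s`, for all large `m`.

The universal system of relations is the one of helper854 (`Pool.Agent.H854.SQ`).
-/

set_option autoImplicit false

open CategoryTheory CategoryTheory.Limits AlgebraicGeometry Pool.Agent.Y116.UV Pool.Agent.Z125.UN
  Pool.Agent.Q193.LT Pool.Agent.Q49.WU Pool.Agent.H854.SQ Pool.Agent.H367.OS

universe w



namespace Pool.Agent.Results.MP_62d77c_ag.OneSequenceOverTheIntegers

/-- **Orthogonal liftings of cycles and one sequence of cubic hypersurfaces over the integers.** See the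
explanations above. Known cases that are used: the point, and the indices `N ≤ 1` (divisors). -/
theorem result {C : PairData.{w} ℚ (ℤ × ℤ) ℚ} (weight : IsWeightPair C)
    (vanish : PVanish C Prod.fst) (generated : GenAt C Prod.fst) (point : BijAll C (aff ℚ ℚ))
    {V : Type 1} {cod : V → ℕ} {lift : V → Prop}
    (models : ∀ n : ℕ, (∀ x, cod x = n → lift x) ↔
      ∀ Y : Sch ℚ, SmoothProj Y → BijAt C Prod.fst n Y)
    (divisors : ∀ N : ℤ, N ≤ 1 → ∀ Y : Sch ℚ, SmoothProj Y → BijAt C Prod.fst N Y) :
    (∀ n : ℕ, (∀ x, cod x = n → lift x) ↔
      ∃ᶠ m in Filter.atTop, ∀ N : ℕ, BijAt C Prod.fst (idx m n N) (cubG ℚ m)) ∧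
    ((∀ x, lift x) ↔ ∃ᶠ m in Filter.atTop, ∀ n : ℤ, BijAt C Prod.fst n (cubG ℚ m)) ∧
    Decides (BijAt C Prod.fst) ∧
    (∀ n : ℕ, n ≤ 1 → ∀ m, 1 ≤ m → ∀ N : ℕ, BijAt C Prod.fst (idx m n N) (cubG ℚ m)) ∧
    ∀ m : ℕ, (univG ℤ m).totalDegree ≤ 3 ∧
      ∀ (R : Type) [CommRing R], MvPolynomial.map (Int.castRingHom R) (univG ℤ m) = univG R m ∧
        Smooth (cubG R m).hom := by
  have hd : Decides (BijAt C Prod.fst) :=
    decides_pair isPrimeField_rat generated weight graded_weight vanish point
  have h1 : (∀ Y : Sch ℚ, SmoothProj Y → ∀ n : ℤ, BijAt C Prod.fst n Y) ↔
      ∃ᶠ m in Filter.atTop, ∀ n : ℤ, BijAt C Prod.fst n (cubG ℚ m) := hd.all.out 1 0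
  refine ⟨fun n => (models n).trans ((hd.index n).out 1 0),
    Iff.trans ⟨fun g Y hY n => ?_, fun g x => ?_⟩ h1, hd, fun n hn m hm N => ?_, cubG_facts⟩
  · rcases le_or_gt n 1 with hn | hn
    · exact divisors n hn Y hY
    · lift n to ℕ using by omega
      exact (models n).mp (fun x _ => g x) Y hY
  · exact (models (cod x)).mpr (fun Y hY => g Y hY _) x rfl
  · exact known_indices (graduated_pair weight graded_weight vanish point)
      (generated n) (divisors n (by exact_mod_cast hn)) (hn.trans hm) N

end Pool.Agent.Results.MP_62d77c_ag.OneSequenceOverTheIntegers
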