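import Mathlib
import Pool.Agent.H298.Core.Sep
import Pool.Agent.H298.Core.FibCrit
import Pool.Graph.R_pool_sql_team_seeded_b0a926ef.R900.BB.Main

/-!
# Cohomologically trivial cycles orthogonal to fibral cycles: fibres generated by abelian varieties with
# separated factors (small blocks, and CM fields with irreducible odd part or primitive core)

Let `X` be a smooth proper variety of dimension `d` over a number field `E`, and let `𝒳` be a regular
proper flat model of `X` over the ring of integers, with the fibres `Y v` over the closed points `v`;
let `i + a = d + 1`.

**Theorem.** Suppose that for all of the finitely many `v` for which `Y v` is not smooth

* the conjecture of the monodromy weight filtration holds for `H^(2 i - 1)(X)` at `v`; this is known if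
  `X` is an abelian variety, a product of curves, a complete intersection in a projective space
  (Scholze), or if `i = 1` or `i = d`; and
* the scheme `Y v` (over a finite field) belongs to the class `𝒢` described below, generated by the
  **abelian varieties with separated factors**, or it satisfies the conjecture of Tate, with
  semisimplicity, for cycles of dimension `a`.

Then all cohomologically trivial cycles in `Ch^i(X)` extend to cycles in `Ch^i(𝒳)` that are orthogonal
to all cycles in `Ch^a(𝒳)` which are supported in closed fibres: Q1 has a positive answer for `𝒳` and `i`
(`Orthogonal`).

**Abelian varieties with separated factors.** An abelian variety over the field with `p ^ b` elements
is modelled by `RedAV` (Honda, Tate): a finite product of CM types `(E k, Φ k)` with Weil numbers in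
`E k` that satisfy the formula of Shimura and Taniyama. It has separated factors (`IsSeparatedAV`) if
over an algebraic closure it is isogenous to a product of a supersingular abelian variety and of
powers of abelian varieties which belong to Weil numbers `π i`, all powers of which generate CM fields
`K i`, such that

* each `π i` is of core type, or belongs to one of finitely many blocks;
* two fields which do not belong to one block are unlinked: for all complex embeddings `φ` of `K i` and
  `ψ` of `K j` some automorphism of `ℂ` is the identity on `φ (K i)` and the complex conjugation on
  `ψ (K j)`;
* in each block the fields have degree at most six, or the sum of their degrees is at most ten and they
  are not an imaginary quadratic field and a field of degree eight; and two of them which have the same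
  Galois closure are Galois over `ℚ` (`IsSmallSet`); the endomorphism algebras of the factors in the
  blocks are commutative. **There can be arbitrary relations between the Frobenius eigenvalues in a
  block, and exotic Tate classes**, which are algebraic by theorems of Markman (dimension four and six)
  and constructions of the library.

For instance this is so for **all products of powers of simple abelian varieties of dimension at most
five with commutative endomorphism algebras, any number of them, whose fields are pairwise unlinked**
(each in its own block), with any Newton polygons, and of abelian varieties of core type of any
dimension. Different abelian varieties may have different fields, numbers and characteristics.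

**Core type, in short.** Let `K` be a CM field of degree `2 g`, `K₀` its maximal real subfield and `2 ^ v`, `1
≤ v ≤ g`, the degree of the Galois closure of `K` over the Galois closure of `K₀` (typically `v =
g`). The Weil numbers `π` all powers of which generate `K` are of core type in the following cases
(`FieldCriteria`), among others: **(a) `v > g / 3`; (b) the slopes of `π` have odd
denominators, for example `π` is ordinary, and `v > g / 4`, or `g` is the product of two prime
numbers and `v > 1`, or `g` is prime, or `K` has few divisors in the sense of `FewDivisors`; (c) the
Galois group of `K₀` is doubly transitive, and `g` is odd, or `g - 1` is a prime number; or it is triply transitive,
for example the symmetric group, or the alternating group if `g ≥ 5`, `g ≥ 3`; and no norm of `π` to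
an imaginary quadratic field is supersingular** (this is
so if `g` is odd and `π` is ordinary). The general hypothesis (`IsCoreWeil`) is explained below.

**Cores.** Let `X` be the set of the complex embeddings of the CM field `K`, `[K : ℚ] = 2 g`. The
automorphisms of `ℂ` which map all elements of `X` to themselves or to their complex conjugates are
called sign changes. The first core of `φ : X` consists of the `ψ : X` which are moved by the same
sign changes as `φ`. If one uses all automorphisms which map the elements of the first core to
themselves or to their conjugates, one obtains the second core, inside of the first one, and so on
(`coreOf`). The cores of the same index have the same number `2 c` of elements, `c` divides `g`, and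
the smallest such number `c` is the core number of `K`. It satisfies `c ≤ g / v`, and if a prime
number `q` divides the discriminant of `K`, but not the discriminant of the maximal real subfield,
then `q ^ c` divides the discriminant of `K`. `FewDivisors` says that all divisors of `g` which
satisfy these conditions are one or prime.

**The Weil numbers.** Let `p` be a prime number, `q = p ^ a`, let `K i` (`i` in a finite set) be CM
fields and `π i` Weil numbers for `q` in `K i` such that each power `(π i) ^ n`, `n ≥ 1`, generates
`K i`. By Honda and Tate they correspond to the abelian varieties over the field with `q` elements
which are geometrically simple with commutative endomorphism ring, and to other abelian varieties.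
The number `π i` in `K = K i` is of core type (`IsCoreWeil`) if one of the following conditions holds.

* The rational functions on `X` which change their sign under complex conjugation are an irreducible
  representation of the automorphisms of `ℂ` (`OddIrreducible`), for example because the core number
  of `K` is one.
* There is a core with `c` pairs of embeddings, and `c` is a prime number, or `c = [K : F]` for a
  subfield `F`, not totally real, such that the automorphisms of `ℂ` act doubly transitively on the
  extensions to `K` of an embedding of `F` (`PrimitiveCore`); and there is **no** subfield `F` with
  `[K : F] = c`, not totally real, in which the norm `N` of `π i` is supersingular
  (`SupersingularNorm`; this means that `N ^ 2 / q ^ c` is a root of unity).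

The condition on the norms in the second case is necessary and sufficient for the absence of
relations between the conjugates of `π i` (`NormCriteria`), and so of exotic Tate classes on the
powers of its abelian variety; it is satisfied if `c = 2`, if `c` is odd and the slopes of `π i`
have odd denominators (for example in the ordinary case), and if all subfields `F` with `[K : F] =
c` are totally real. There are no other conditions on `π i`, its slopes, the decomposition of `p` in
`K i`, the degree or the Galois group of `K i`.

`Homology Ω V` are data of motivic homology `M X n j = H_n^M(X, ℚ(j)) = CH_j(X, n - 2 j) ⊗ ℚ` (higher
Chow groups) and of `ℓ`-adic homology `E X n j = H_n(X, ℚ_ℓ(j))` of schemes `X : V` of finite type over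
finite fields, with the Frobenius and the regulator. Let `𝒢` (`Generated`) be the smallest class of
schemes that contains those with the homology groups of abelian varieties with
separated factors (`IsAbelianSep`), that is closed under direct summands of finite sums of twists of motives, and that
contains all of a closed subscheme `Z` of `X`, `X` and `X ∖ Z` if it contains two of them. It
contains for instance all products of curves such that the product of their Jacobian varieties has
separated factors, and of open subsets of such curves, and their symmetric powers.

**Formulation.** `A` is `CH^i(𝒳) ⊗ ℚ`, `triv` are the cycles whose restriction to `X` is
cohomologically trivial, `push v` is the map `CH_a(Y v) → CH^i(𝒳)`, and `num v x z` is the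
intersection number of `x` with `z` in `CH_i(Y v)`. Since `log N(v) * num v x z` is the value of the
pairing of Gillet and Soulé, and `Ch^a_fin(𝒳)` is generated by the images of the groups `CH_i(Y v)`,
the cycle `y` in the theorem, which has the same restriction to `X` as `x`, is in the orthogonal
complement of `Ch^a_fin(𝒳)`. `HasForm` are the properties of the intersection form of `Y v`; its last
property, that `num v x z` is zero if the class of `z` is zero in `H^(2 a)(Y v)` and `x` is in `triv`,
is derived from the localisation sequence, the projection formula and the weight-monodromy conjecture
in the library (`hasForm`, module `R900.BB.Main`). For smooth `Y v` the intersection numbers
`num v x z` are zero for all `x` in `triv` by smooth specialization.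

Part two (`Criteria`) contains the criteria for Weil numbers of core type: the cases (a), (b) and (c)
above (`FieldCriteria`), and the case of a doubly transitive maximal real subfield, `g` odd or `g - 1` a
prime number. Two CM fields are unlinked, for example, if they are linearly disjoint over `ℚ`, or if
there is a prime number which divides the discriminant of one of them, but not that of its maximal
real subfield and not that of the other one. The condition on the norms is also necessary for the
absence of relations (`NormCriteria`, in the hand-in `SmallCoreFields` on the page MP_0f183b_ag).

**What was known.** The case of models with good reduction everywhere is listed as known. For `i = 1`
and `i = d` the assertion is classical. In general it was expected to follow from the conjecture of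
Tate for the homology of the fibres and the weight-monodromy conjecture (Beilinson). The library has
the theorem for fibres generated by abelian varieties with **almost all** slope types of CM fields
(`FibresAllCMFields`, whose machine is used), and for products of powers of the factors of one abelian
variety of dimension at most five, or of abelian varieties of dimension at most three. New here are the
products with any number of factors, separated into unlinked blocks, the abelian varieties of all
dimensions whose Weil numbers lie in fields with primitive cores, with a condition on the norms which
is necessary and sufficient, without exceptional types, and different families in the same fibre.

Properties of the theory of cycles that are used for the abelian varieties (`IsChow`, `IsMotivic`):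
Poincaré duality, the formal properties of correspondences, the nilpotence of homologically trivial
correspondences (Kimura), the operation of the Frobenius endomorphism on higher Chow groups, the
vanishing of the higher rational `K`-groups of a finite field (Quillen), and the algebraicity of the
classes in `Alg` (theorem of Tate on divisors; theorems of Markman on Weil classes). The
passage from the Tate conjecture for abelian varieties to all degrees and to the class generated is
due to Soulé, Geisser, Kahn and Jannsen and was formalized in the library.

**The proof.** For the numbers of core type it is sufficient to show for each field `K` that the function `w`, the slope of `φ
(π)` minus one half, on the set `X` is not orthogonal to a nonzero space of odd functions which is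
stable under the automorphisms of `ℂ`. If the odd functions are irreducible this is clear. Let `r`
be an element of such a space with integral values. By the sign changes one can cut `r` down; this
gives, by induction on the size of the support and on the index of the core, a relation which is
supported in one core. The automorphisms preserving the core act transitively on it. If it has `2 c`
elements with a prime number `c`, then a Sylow subgroup contains an element which has two orbits of
length `c` on the core, exchanged by the complex conjugation. Since the cyclotomic polynomial is
irreducible, either `w (τ φ) = w (τ φ')` for all `τ` with two different `φ`, `φ'` of the core, or
the sums of `w` over the translates of one orbit are zero, and the orbit consists of the extensions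
of an embedding of a subfield `F` with `[K : F] = c`, which is not totally real. In the doubly
transitive case the extensions of an embedding of `F` are one half of the core (a sign change moves
all of them or none), and an average over a stabilizer gives the same two alternatives. In the first
case `φ (π)` and `φ' (π)` have the same absolute values at all places of all conjugates, so they
differ by a root of unity, and a power of `π` does not generate `K`. In the second case the norm of
`π` in `F` is supersingular. Conversely a supersingular norm is a relation, by Kronecker's theorem.
For the cases (a), (b) and (c) one uses that a sign change is determined by the first cores which it
moves, so that `2 ^ v ≤ 2 ^ (g / c)`, and that for a triply transitive group either the odd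
functions are irreducible or the signs are given by a character of the group, so that `K` contains
an imaginary quadratic field. If the group is doubly transitive, let `V` be a space of odd functions
which is stable under the automorphisms, neither zero nor everything. The values of its reproducing
kernel at two embeddings in different pairs are `β` or `-β`, and `β ≠ 0`; the signs form a regular
two-graph on the `g` pairs, with the eigenvalues `r` on `V` and `-s` on the orthogonal space,
`r s = g - 1`, `(r + s) dim V = g s`. If `g` is odd then `r` or `s` is even, and a descent modulo two
shows that the nonzero functions in one of the two spaces have no zeros; by the maximum principle
this is also true if `r` or `s` is `1` or `-1`. So this space has dimension one, and the signs of its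
functions give an imaginary quadratic subfield. So the
relations between the conjugates of a Weil number of core type are trivial (`IsFree`). If the fields
of different blocks are unlinked then the relations between the Frobenius eigenvalues split into
relations in the blocks (`split_iff`, by applying the automorphisms which conjugate one embedding and
fix another one), so they are elementary in the sense of the library (`elementary_sep`), and all Tate
classes are algebraic.
-/

set_option autoImplicit false

namespace Pool.Agent.Results.MP_62d77c_ag.SmallCoreFields

open NumberField Module Pool.Agent.W495.FM Pool.Agent.R900.BB Pool.Agent.H298.Core
  Pool.Agent.H298.Core.Fib

/-- Orthogonal extension of cohomologically trivial cycles for all models all whose fibres which are not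
smooth are generated by abelian varieties with separated factors, or satisfy the conjecture of Tate
with semisimplicity for the cycles of dimension `a`. -/
def Orthogonal : Prop :=
  ∀ (P : Type) (Ω V : P → Type) [∀ v, Field (Ω v)] [∀ v, IsAlgClosed (Ω v)]
    [∀ v, CharZero (Ω v)] (T : ∀ v, Homology (Ω v) (V v)), (∀ v, IsHomology (T v)) →
    ∀ (Y : ∀ v, V v) (i a : ℤ) (A : Type) [AddCommGroup A] [Module ℚ A]
      (push : ∀ v, (T v).M (Y v) (2 * a) a → A) (num : ∀ v, A → (T v).M (Y v) (2 * i) i → ℚ)
      (triv : A → Prop), (∀ v f x, triv x → triv (x + push v f)) → (∀ v, IsBilin ℚ (num v)) →
      (∀ v w, v ≠ w → ∀ f z, num w (push v f) z = 0) →
      ∀ bad : Set P, bad.Finite → (∀ v, v ∉ bad → ∀ x z, triv x → num v x z = 0) →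
        (∀ v ∈ bad, HasForm (T v) (Y v) i a (num v) (push v) triv) →
        (∀ v ∈ bad, Generated (T v) (IsAbelianSep (T v)) (Y v) ∨ IsOnto (T v) (Y v) a) →
        ∀ x, triv x →
          ∃ y, y - x ∈ Submodule.span ℚ (⋃ v, Set.range (push v)) ∧ ∀ v z, num v y z = 0

/-- A CM field of degree `2 g` has few divisors if the degree of its Galois closure over the Galois
closure of the maximal real subfield is larger than `2 ^ (g / 4)`. The criteria for `IsCoreWeil`
(`FieldCriteria`), for the Weil numbers all powers of which generate a CM field; and the criterion for
a doubly transitive maximal real subfield, if `g` is odd or `g - 1` is a prime number. -/
def Criteria : Prop :=
  ∀ (K : Type) [Field K] [NumberField K] [IsCMField K], (LargeClosure K 4 → FewDivisors K) ∧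
    ∀ (p : ℕ) [Fact p.Prime] (a : ℕ), 0 < a → ∀ π : K, Pool.Agent.Y156.P.IsSimpleWeil p a π →
      FieldCriteria p a π ∧
      (TwiceTransitive (maximalRealSubfield K) →
        Odd (finrank ℚ K / 2) ∨ (finrank ℚ K / 2 - 1).Prime →
        (∀ F : IntermediateField ℚ K, 2 * finrank F K = finrank ℚ K → ¬ IsTotallyReal F →
          ¬ SupersingularNorm p a π F) → IsCoreWeil p a π)

/-- **Orthogonal extension of cohomologically trivial cycles for all models whose singular fibres are
generated by abelian varieties with separated factors: unlinked blocks of small fields, and Weil
numbers in CM fields with irreducible odd part or primitive core.** -/
theorem result : Orthogonal ∧ Criteria :=
  ⟨fun _ _ _ _ _ _ _ hT _ _ a _ _ _ _ _ _ htr hnum hne _ hbad hgood hcl hY _ hx =>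
    exists_orthogonal hT htr hnum hne hbad hgood hcl (fun v hv => (hY v hv).elim
      (fun h' => ((tb_sep (hT v) h').iso (hT v) a).1) id) hx, fun K _ _ _ => short_criteria K⟩

end Pool.Agent.Results.MP_62d77c_ag.SmallCoreFields
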