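import Pool.Agent.H844.Zar.Codim

/-!
# Orthogonal lifts of cohomologically trivial cycles and Zariski's lemma for the bad fibres

Let `X` be a smooth proper variety of dimension `d` over a number field `E`, `𝒳` a regular proper flat
model of `X` over `O_E` and `i` any codimension. Question 1 for `𝒳` and `i` (`Lifting`) asks for a
lift orthogonal to all fibral cycles for each cohomologically trivial class in `Ch^i(X)`. For a place
`s` let

* `dimFibre s` be the dimension of the space `N_s` of the fibral cycles over `s` of codimension
  `d + 1 - i`, modulo those which are orthogonal to all cycles on `𝒳`;
* `rankFibre s` be the rank of the intersection pairing of the fibral cycles over `s` of codimension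
  `i` with those of codimension `d + 1 - i`;
* `dimX` be the dimension of `Ch^(d-i)(X)` modulo numerical equivalence.

Zariski's lemma for the fibre `𝒳_s` (`ZariskiLemma s`) says that the radical of this pairing consists
of the classes `w · 𝒳_s` with `w` in `Ch^(d-i)(𝒳)`. For `d = i = 1` this is the lemma of Zariski: the
radical of the intersection form on the components of a fibre is generated by the fibre.

1. `rankFibre s + dimX ≤ dimFibre s` for all `s`, with equality if and only if Zariski's lemma holds
   for the fibre over `s`.
2. The classes with orthogonal lifts have finite codimension in the space of all cohomologically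
   trivial classes, at most `∑ (dimFibre s - rankFibre s - dimX)`, the sum over the finitely many bad
   places. In particular, Question 1 holds for `𝒳` and `i` if Zariski's lemma holds for the bad
   fibres.
3. Suppose that homological and numerical equivalence agree for `Ch^i(X)` (this is known for `i = 1`,
   for abelian varieties, and in many other cases). Then the codimension is at least
   `dimFibre s - rankFibre s - dimX` for each bad `s`; Question 1 holds for `𝒳` and `i` if and only if
   Zariski's lemma holds for the bad fibres, that is, if and only if the rank of the intersection
   pairing of the fibral cycles is `dimFibre s - dimX` for each bad place `s`.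

The spaces, the intersection products and the facts which are used (`IsModel`) are data and
hypotheses.
-/

set_option autoImplicit false

universe u v

namespace Pool.Agent.Results.MP_62d77c_ag.ZariskiLemma

open Pool.Agent.H844.Zar

theorem result {P : Type u} (M : ModelData.{u, v} P) (bad : Finset P) (h : M.IsModel bad) :
    (∀ s, M.rankFibre s + M.dimX ≤ M.dimFibre s ∧
      (M.ZariskiLemma s ↔ M.dimFibre s = M.rankFibre s + M.dimX)) ∧
    (M.FiniteCodim ∧
      M.codim + ∑ s ∈ bad, (M.rankFibre s + M.dimX) ≤ ∑ s ∈ bad, M.dimFibre s) ∧
    ((∀ s ∈ bad, M.ZariskiLemma s) → M.Lifting) ∧
    (M.HomEqNum → (∀ s ∈ bad, M.dimFibre s ≤ M.rankFibre s + M.dimX + M.codim) ∧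
      (M.Lifting ↔ ∀ s ∈ bad, M.ZariskiLemma s)) :=
  ModelData.main M h

end Pool.Agent.Results.MP_62d77c_ag.ZariskiLemma
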